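import Pool.Agent.H121.GA.IfB
import Pool.Agent.H121.ME.Main

/-! Project GA: `S_locU`, localization in an energy window for unbounded potentials
(port of `Pool/Agent/H121/ME/{Fm,Main}.lean`). -/

set_option autoImplicit false
set_option linter.unusedSectionVars false

open scoped BigOperators InnerProductSpace Topology ENNReal
open Filter MeasureTheory

namespace Pool.Agent.H139.GA

open Pool.Agent.Y662.TR hiding wt
open Pool.Agent.TH369.AN (Rz rz_eq rz_uniq rz_norm)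
open Pool.Agent.TH369.MU (SpM ep zk spm_exists)
open Pool.Agent.TH369.MU.PO2 (ep_pos ep_tendsto)
open Pool.Agent.H987.Z
open Pool.Agent.H121.Z987 (wt enorm_rpow zk_im ep_le lint_resample)
open Pool.Agent.H121.ME (Qw Dec Gra kerN kerN_row norm_ineq iterT Qw_fin Qw_isFinite Qw_ae)
open Pool.Agent.H121.GA

variable {ι : Type}

/-- the Green function of `T + lam ω` -/
noncomputable def GW (T : LL ι →L[ℂ] LL ι) (lam : ℝ) (ω : ι → ℝ) (z : ℂ) (x y : ι) : ℂ :=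
  GU T (fun p => lam * ω p) z x y

theorem GW_im_pos (hsite : S_site) (T : LL ι →L[ℂ] LL ι) (hT : Rs T) (lam : ℝ) (ω : ι → ℝ) (z : ℂ)
    (hz : 0 < z.im) (x : ι) : 0 < (GW T lam ω z x x).im :=
  ((hsite ι T hT).1 _ z x x hz).1

theorem GW_coord (hsite : S_site) (T : LL ι →L[ℂ] LL ι) (hT : Rs T) (lam : ℝ) (ω : ι → ℝ) (z : ℂ)
    (hz : 0 < z.im) (x y : ι) : z.im * ‖GW T lam ω z x y‖ ^ 2 ≤ (GW T lam ω z x x).im :=
  ((hsite ι T hT).1 _ z x y hz).2.1

theorem GW_le (hsite : S_site) (T : LL ι →L[ℂ] LL ι) (hT : Rs T) (lam : ℝ) (ω : ι → ℝ) (z : ℂ)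
    (hz : 0 < z.im) (x y : ι) : ‖GW T lam ω z x y‖ ≤ 1 / z.im :=
  ((hsite ι T hT).1 _ z x y hz).2.2

open Classical in
theorem GW_site (hsite : S_site) (T : LL ι →L[ℂ] LL ι) (hT : Rs T) (lam : ℝ) (ω : ι → ℝ) (z : ℂ)
    (hz : 0 < z.im) (x y : ι) (v : ℝ) :
    GW T lam (Function.update ω x v) z x y =
      GW T lam (Function.update ω x 0) z x y /
        (1 + (lam : ℂ) * (v : ℂ) * GW T lam (Function.update ω x 0) z x x) := by
  have h := (hsite ι T hT).2.1 lam ω z x y v hz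
  unfold GW
  convert h using 4

theorem GW_eqn (hsite : S_site) (T : LL ι →L[ℂ] LL ι) (hT : Rs T) (lam : ℝ) (ω : ι → ℝ) (z : ℂ)
    (hz : z.im ≠ 0) (s : ℝ) (hs : 0 < s) (hs1 : s ≤ 1) (x y : ι) :
    ‖((lam * ω x : ℝ) : ℂ) - z‖ₑ ^ s * ‖GW T lam ω z x y‖ₑ ^ s ≤
      (‖(dv y : LL ι) x‖ₑ) ^ s + ∑' u, ‖T (dv x) u‖ₑ ^ s * ‖GW T lam ω z u y‖ₑ ^ s :=
  (hsite ι T hT).2.2 (fun p => lam * ω p) z s x y hz hs hs1

theorem GW_meas [Countable ι] (hmU : S_mU) (T : LL ι →L[ℂ] LL ι) (hT : Rs T) (lam : ℝ) (k : ℕ)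
    (x y : ι) :
    Measurable (Function.uncurry fun (E : ℝ) (ω : ι → ℝ) => GW T lam ω (zk E k) x y) :=
  (hmU.1 ι T hT lam x y).1 k

theorem sec_meas {β : Type} [MeasurableSpace β] (f : ℝ → β → ℂ)
    (hf : Measurable (Function.uncurry f)) (b : β) : Measurable fun E => f E b :=
  hf.comp (measurable_id.prodMk measurable_const)

theorem GW_meas1 [Countable ι] (hmU : S_mU) (T : LL ι →L[ℂ] LL ι) (hT : Rs T) (lam : ℝ) (z : ℂ)
    (x y : ι) (hz : z.im ≠ 0) : Measurable fun ω : ι → ℝ => GW T lam ω z x y :=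
  (hmU.1 ι T hT lam x y).2 z hz

open Classical in
/-- the decoupling inequality for Green functions -/
theorem dec_grU (hsite : S_site) (T : LL ι →L[ℂ] LL ι) (hT : Rs T) (lam : ℝ) (hlam : 0 < lam)
    (s c : ℝ) (hs : 0 < s) (μ : Measure ℝ)
    (ω : ι → ℝ) (z : ℂ) (hz : 0 < z.im) (hd : Dec μ lam s c z) (x y : ι) :
    ENNReal.ofReal (c * lam ^ s) *
      ∫⁻ v : ℝ, ‖GW T lam (Function.update ω x v) z x y‖ₑ ^ s ∂μ ≤
    ∫⁻ v : ℝ, ‖((lam * v : ℝ) : ℂ) - z‖ₑ ^ s *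
      ‖GW T lam (Function.update ω x v) z x y‖ₑ ^ s ∂μ := by
  obtain ⟨a, ha⟩ : ∃ a, a = GW T lam (Function.update ω x 0) z x x := ⟨_, rfl⟩
  obtain ⟨g, hg⟩ : ∃ g, g = GW T lam (Function.update ω x 0) z x y := ⟨_, rfl⟩
  have ha0 : 0 < a.im := by rw [ha]; exact GW_im_pos hsite T hT lam _ z hz x
  have hane : a ≠ 0 := by
    intro h
    rw [h] at ha0
    simp at ha0
  have han : 0 < ‖a‖ := norm_pos_iff.2 hane
  have hlc : (lam : ℂ) ≠ 0 := by exact_mod_cast hlam.ne'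
  obtain ⟨β, hβ⟩ : ∃ β : ℂ, β = -1 / ((lam : ℂ) * a) := ⟨_, rfl⟩
  obtain ⟨α, hα⟩ : ∃ α : ℂ, α = z / (lam : ℂ) := ⟨_, rfl⟩
  obtain ⟨k, hk⟩ : ∃ k : ℝ, k = ‖g‖ / (lam * ‖a‖) := ⟨_, rfl⟩
  have hk0 : 0 ≤ k := by rw [hk]; positivity
  have hβi : β.im ≠ 0 := by
    intro h
    have h1 : β * ((lam : ℂ) * a) = -1 := by
      rw [hβ]
      field_simp
    have h2 : (β : ℂ) = (β.re : ℂ) := by
      apply Complex.ext
      · simp
      · simp [h]
    rw [h2] at h1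
    have h3 := congrArg Complex.im h1
    simp only [Complex.mul_im, Complex.ofReal_re, Complex.ofReal_im, zero_mul, add_zero,
      Complex.mul_re, sub_zero, Complex.neg_im, Complex.one_im, neg_zero] at h3
    have h4 : β.re = 0 := by
      rcases mul_eq_zero.1 h3 with h4 | h4
      · exact h4
      · exact absurd h4 (mul_pos hlam ha0).ne'
    rw [h4] at h1
    simp at h1
  -- the absolute values
  have e1 : ∀ v : ℝ, ‖g / (1 + (lam : ℂ) * (v : ℂ) * a)‖ = k * ‖(v : ℂ) - β‖⁻¹ := by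
    intro v
    have h1 : 1 + (lam : ℂ) * (v : ℂ) * a = (lam : ℂ) * a * ((v : ℂ) - β) := by
      rw [hβ]
      field_simp
      ring
    rw [h1, norm_div, norm_mul, norm_mul, Complex.norm_real, Real.norm_of_nonneg hlam.le, hk,
      div_mul_eq_div_div, div_eq_mul_inv]
  have e2 : ∀ v : ℝ, ‖((lam * v : ℝ) : ℂ) - z‖ = lam * ‖(v : ℂ) - α‖ := by
    intro v
    have h1 : ((lam * v : ℝ) : ℂ) - z = (lam : ℂ) * ((v : ℂ) - α) := by
      rw [hα]
      push_cast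
      field_simp
    rw [h1, norm_mul, Complex.norm_real, Real.norm_of_nonneg hlam.le]
  have e3 : ∀ v : ℝ, (k * ‖(v : ℂ) - β‖⁻¹) ^ s = k ^ s * ‖(v : ℂ) - β‖ ^ (-s) := by
    intro v
    rw [Real.mul_rpow hk0 (by positivity), Real.inv_rpow (norm_nonneg _),
      ← Real.rpow_neg (norm_nonneg _)]
  have i1 : ∫⁻ v : ℝ, ‖GW T lam (Function.update ω x v) z x y‖ₑ ^ s ∂μ =
      ENNReal.ofReal (k ^ s) * ∫⁻ v : ℝ, ENNReal.ofReal (‖(v : ℂ) - β‖ ^ (-s)) ∂μ := by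
    rw [← lintegral_const_mul' _ _ ENNReal.ofReal_ne_top]
    refine lintegral_congr fun v => ?_
    rw [GW_site hsite T hT lam ω z hz x y v, ← ha, ← hg, enorm_rpow _ s hs.le, e1, e3,
      ENNReal.ofReal_mul (by positivity)]
  have i2 : ∫⁻ v : ℝ, ‖((lam * v : ℝ) : ℂ) - z‖ₑ ^ s *
      ‖GW T lam (Function.update ω x v) z x y‖ₑ ^ s ∂μ =
      ENNReal.ofReal (lam ^ s * k ^ s) *
        ∫⁻ v : ℝ, ENNReal.ofReal (‖(v : ℂ) - α‖ ^ s * ‖(v : ℂ) - β‖ ^ (-s)) ∂μ := by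
    rw [← lintegral_const_mul' _ _ ENNReal.ofReal_ne_top]
    refine lintegral_congr fun v => ?_
    rw [GW_site hsite T hT lam ω z hz x y v, ← ha, ← hg, enorm_rpow _ s hs.le,
      enorm_rpow _ s hs.le,
      e1, e2, e3, ← ENNReal.ofReal_mul (by positivity), ← ENNReal.ofReal_mul (by positivity),
      Real.mul_rpow hlam.le (norm_nonneg _)]
    congr 1
    ring
  rw [i1, i2]
  calc ENNReal.ofReal (c * lam ^ s) *
        (ENNReal.ofReal (k ^ s) * ∫⁻ v : ℝ, ENNReal.ofReal (‖(v : ℂ) - β‖ ^ (-s)) ∂μ) =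
      ENNReal.ofReal (lam ^ s * k ^ s) *
        (ENNReal.ofReal c * ∫⁻ v : ℝ, ENNReal.ofReal (‖(v : ℂ) - β‖ ^ (-s)) ∂μ) := by
        rw [mul_comm c, ENNReal.ofReal_mul (by positivity), ENNReal.ofReal_mul (by positivity)]
        ring
    _ ≤ _ := by
        gcongr
        rw [hα]
        exact hd β hβi

open Classical in
/-- Graf's bound for Green functions -/
theorem graf_grU (hsite : S_site) (T : LL ι →L[ℂ] LL ι) (hT : Rs T) (lam : ℝ) (s C : ℝ)
    (hs : 0 < s) (μ : Measure ℝ) (hg : Gra μ lam s C)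
    (ω : ι → ℝ) (E : ℝ) (k : ℕ) (x y : ι) :
    ∫⁻ v : ℝ, ENNReal.ofReal (ep k * ‖GW T lam (Function.update ω x v) (zk E k) x y‖ ^ 2) ∂μ ≤
      ENNReal.ofReal C *
        ∫⁻ v : ℝ, ‖GW T lam (Function.update ω x v) (zk E k) x y‖ₑ ^ s ∂μ := by
  have hz : 0 < (zk E k).im := by rw [zk_im]; exact ep_pos k
  have h1 := hg (GW T lam (Function.update ω x 0) (zk E k) x x)
    (GW T lam (Function.update ω x 0) (zk E k) x y) (ep k) (ep_pos k) (ep_le k)
    (GW_im_pos hsite T hT lam _ _ hz x)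
    (by have := GW_coord hsite T hT lam (Function.update ω x 0) _ hz x y
        rwa [zk_im] at this)
    (by have := GW_coord hsite T hT lam (Function.update ω x 0) _ hz x x
        rwa [zk_im] at this)
  have i1 : ∫⁻ v : ℝ, ENNReal.ofReal
      (ep k * ‖GW T lam (Function.update ω x v) (zk E k) x y‖ ^ 2) ∂μ =
      ∫⁻ v : ℝ, ENNReal.ofReal (ep k * ‖GW T lam (Function.update ω x 0) (zk E k) x y /
        (1 + (lam : ℂ) * (v : ℂ) * GW T lam (Function.update ω x 0) (zk E k) x x)‖ ^ 2) ∂μ := by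
    refine lintegral_congr fun v => ?_
    rw [GW_site hsite T hT lam ω _ hz x y v]
  have i2 : ∫⁻ v : ℝ, ‖GW T lam (Function.update ω x v) (zk E k) x y‖ₑ ^ s ∂μ =
      ∫⁻ v : ℝ, ENNReal.ofReal (‖GW T lam (Function.update ω x 0) (zk E k) x y /
        (1 + (lam : ℂ) * (v : ℂ) * GW T lam (Function.update ω x 0) (zk E k) x x)‖ ^ s) ∂μ := by
    refine lintegral_congr fun v => ?_
    rw [GW_site hsite T hT lam ω _ hz x y v, enorm_rpow _ s hs.le]
  rw [i1, i2]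
  exact h1

section prob

variable [Countable ι]

/-- the fractional moment -/
noncomputable def fmU (T : LL ι →L[ℂ] LL ι) (lam s : ℝ) (μ : Measure ℝ) [IsProbabilityMeasure μ]
    (y : ι) (z : ℂ) (x : ι) : ℝ≥0∞ :=
  ∫⁻ ω, ‖GW T lam ω z x y‖ₑ ^ s ∂(Measure.infinitePi fun _ : ι => μ)

theorem fmU_le (hsite : S_site) (T : LL ι →L[ℂ] LL ι) (hT : Rs T) (lam s : ℝ) (hs : 0 < s)
    (μ : Measure ℝ) [IsProbabilityMeasure μ] (y : ι) (z : ℂ) (hz : 0 < z.im) (x : ι) :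
    fmU T lam s μ y z x ≤ ENNReal.ofReal ((1 / z.im) ^ s) := by
  unfold fmU
  have h1 : ∀ ω : ι → ℝ, ‖GW T lam ω z x y‖ₑ ^ s ≤ ENNReal.ofReal ((1 / z.im) ^ s) := by
    intro ω
    rw [enorm_rpow _ s hs.le]
    apply ENNReal.ofReal_le_ofReal
    exact Real.rpow_le_rpow (norm_nonneg _) (GW_le hsite T hT lam ω z hz x y) hs.le
  calc ∫⁻ ω, ‖GW T lam ω z x y‖ₑ ^ s ∂(Measure.infinitePi fun _ : ι => μ) ≤
        ∫⁻ _, ENNReal.ofReal ((1 / z.im) ^ s) ∂(Measure.infinitePi fun _ : ι => μ) :=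
        lintegral_mono h1
    _ = _ := by rw [lintegral_const, measure_univ, mul_one]

open Classical in
/-- the inequality for the fractional moments -/
theorem fm_ineqU (hsite : S_site) (hmU : S_mU) (T : LL ι →L[ℂ] LL ι) (hT : Rs T) (lam : ℝ)
    (hlam : 0 < lam) (s c : ℝ)
    (hs : 0 < s) (hs1 : s ≤ 1) (μ : Measure ℝ) [IsProbabilityMeasure μ]
    (y : ι) (z : ℂ) (hz : 0 < z.im) (hd : Dec μ lam s c z) (x : ι) :
    ENNReal.ofReal (c * lam ^ s) * fmU T lam s μ y z x ≤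
      (if x = y then 1 else 0) + ∑' u, ‖T (dv x) u‖ₑ ^ s * fmU T lam s μ y z u := by
  have hm : ∀ u, Measurable fun ω : ι → ℝ => ‖GW T lam ω z u y‖ₑ ^ s := fun u =>
    ((GW_meas1 hmU T hT lam z u y hz.ne').enorm).pow_const s
  have hm2 : Measurable fun ω : ι → ℝ =>
      ‖((lam * ω x : ℝ) : ℂ) - z‖ₑ ^ s * ‖GW T lam ω z x y‖ₑ ^ s := by
    refine Measurable.mul ?_ (hm x)
    refine Measurable.pow_const (Measurable.enorm ?_) s
    have h1 : Measurable fun ω : ι → ℝ => ω x := measurable_pi_apply x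
    exact (Complex.measurable_ofReal.comp (h1.const_mul lam)).sub_const z
  calc ENNReal.ofReal (c * lam ^ s) * fmU T lam s μ y z x =
        ∫⁻ ω, ENNReal.ofReal (c * lam ^ s) *
          ∫⁻ v, ‖GW T lam (Function.update ω x v) z x y‖ₑ ^ s ∂μ
          ∂(Measure.infinitePi fun _ : ι => μ) := by
        unfold fmU
        rw [lint_resample μ x _ (hm x), lintegral_const_mul' _ _ ENNReal.ofReal_ne_top]
    _ ≤ ∫⁻ ω, ∫⁻ v, ‖((lam * v : ℝ) : ℂ) - z‖ₑ ^ s *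
          ‖GW T lam (Function.update ω x v) z x y‖ₑ ^ s ∂μ
          ∂(Measure.infinitePi fun _ : ι => μ) := by
        refine lintegral_mono fun ω => ?_
        exact dec_grU hsite T hT lam hlam s c hs μ ω z hz hd x y
    _ = ∫⁻ ω, ‖((lam * ω x : ℝ) : ℂ) - z‖ₑ ^ s * ‖GW T lam ω z x y‖ₑ ^ s
          ∂(Measure.infinitePi fun _ : ι => μ) := by
        rw [lint_resample μ x _ hm2]
        simp only [Function.update_self]
    _ ≤ ∫⁻ ω, ((‖(dv y : LL ι) x‖ₑ) ^ s +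
          ∑' u, ‖T (dv x) u‖ₑ ^ s * ‖GW T lam ω z u y‖ₑ ^ s)
          ∂(Measure.infinitePi fun _ : ι => μ) := by
        refine lintegral_mono fun ω => ?_
        exact GW_eqn hsite T hT lam ω z hz.ne' s hs hs1 x y
    _ = _ := by
        rw [lintegral_add_left measurable_const, lintegral_const, measure_univ, mul_one,
          lintegral_tsum fun u => ((hm u).const_mul _).aemeasurable]
        congr 1
        · by_cases h : x = y
          · subst h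
            rw [dv_self, if_pos rfl]
            simp
          · rw [dv_ne h, if_neg h]
            simp [hs]
        · refine tsum_congr fun u => ?_
          rw [lintegral_const_mul _ (hm u)]
          rfl

/-- the supremum of the fractional moments in the window -/
noncomputable def fsU (I : Set ℝ) (T : LL ι →L[ℂ] LL ι) (lam s : ℝ) (μ : Measure ℝ)
    [IsProbabilityMeasure μ] (y : ι) (x : ι) : ℝ≥0∞ :=
  ⨆ p : I × ℕ, fmU T lam s μ y (zk (p.1 : ℝ) p.2) x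

theorem fs_sumU (hsite : S_site) (hmU : S_mU) (I : Set ℝ) (T : LL ι →L[ℂ] LL ι) (hT : Rs T)
    (lam : ℝ) (hlam : 0 < lam)
    (s c S : ℝ) (hs : 0 < s) (hs1 : s ≤ 1) (hL : 0 < c * lam ^ s)
    (hc : S < c * lam ^ s)
    (hTs : ∀ x, (Summable fun y => ‖T (dv y) x‖ ^ s) ∧ ∑' y, ‖T (dv y) x‖ ^ s ≤ S)
    (μ : Measure ℝ) [IsProbabilityMeasure μ]
    (hd : ∀ z : ℂ, 0 < z.im → z.re ∈ I → Dec μ lam s c z)
    (y : ι) : ∑' x, fsU I T lam s μ y x ≠ ∞ := by
  classical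
  obtain ⟨L, hLdef⟩ : ∃ L, L = c * lam ^ s := ⟨_, rfl⟩
  rw [← hLdef] at hL hc
  obtain ⟨h1, h2⟩ := kerN_row T hT s L S hs hL hTs
  have hθ : ENNReal.ofReal (S / L) < 1 := by
    rw [← ENNReal.ofReal_one]
    apply (ENNReal.ofReal_lt_ofReal_iff (by norm_num)).2
    rwa [div_lt_one hL]
  have hLi : (ENNReal.ofReal L)⁻¹ ≠ ∞ := ENNReal.inv_ne_top.2 (ENNReal.ofReal_pos.2 hL).ne'
  have hgs : ∑' x, (ENNReal.ofReal L)⁻¹ * (if x = y then (1 : ℝ≥0∞) else 0) ≤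
      (ENNReal.ofReal L)⁻¹ := by
    rw [ENNReal.tsum_mul_left, tsum_ite_eq, mul_one]
  obtain ⟨B, hB⟩ : ∃ B, B = (ENNReal.ofReal L)⁻¹ * (1 - ENNReal.ofReal (S / L))⁻¹ := ⟨_, rfl⟩
  have hBtop : B ≠ ∞ := by
    rw [hB]
    exact ENNReal.mul_ne_top hLi (ENNReal.inv_ne_top.2 (tsub_pos_of_lt hθ).ne')
  have hzim : ∀ p : I × ℕ, 0 < (zk (p.1 : ℝ) p.2).im := fun p => by
    rw [Pool.Agent.H121.Z987.zk_im]; exact ep_pos _
  have hzre : ∀ p : I × ℕ, (zk (p.1 : ℝ) p.2).re ∈ I := fun p => by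
    have : (zk (p.1 : ℝ) p.2).re = (p.1 : ℝ) := by
      rw [zk_eq]; simp
    rw [this]
    exact p.1.2
  have h3 : ∀ (p : I × ℕ) (x : ι), fmU T lam s μ y (zk (p.1 : ℝ) p.2) x ≤ B := by
    intro p x
    have h4 := iterT (kerN T s L) _ hθ h1 h2 (fmU T lam s μ y (zk (p.1 : ℝ) p.2)) _
      ENNReal.ofReal_ne_top (fmU_le hsite T hT lam s hs μ y _ (hzim p)) (ENNReal.ofReal L)⁻¹ _ hgs
      (norm_ineq T s L hL y _ (by
        intro x
        rw [hLdef]
        exact fm_ineqU hsite hmU T hT lam hlam s c hs hs1 μ y _ (hzim p)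
          (hd _ (hzim p) (hzre p)) x))
    rw [hB]
    exact (ENNReal.le_tsum x).trans h4
  have h5 : ∀ x, fsU I T lam s μ y x ≤ B := fun x => iSup_le fun p => h3 p x
  have h6 : ∀ x, ENNReal.ofReal L * fsU I T lam s μ y x ≤
      (if x = y then 1 else 0) + ∑' u, ‖T (dv x) u‖ₑ ^ s * fsU I T lam s μ y u := by
    intro x
    unfold fsU
    rw [ENNReal.mul_iSup]
    refine iSup_le fun p => ?_
    rw [hLdef]
    refine (fm_ineqU hsite hmU T hT lam hlam s c hs hs1 μ y _ (hzim p)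
      (hd _ (hzim p) (hzre p)) x).trans ?_
    gcongr with u
    exact le_iSup (fun p : I × ℕ => fmU T lam s μ y (zk (p.1 : ℝ) p.2) u) p
  have h7 := norm_ineq T s L hL y _ h6
  have h8 := iterT (kerN T s L) _ hθ h1 h2 (fsU I T lam s μ y) B hBtop h5 (ENNReal.ofReal L)⁻¹ _
    hgs h7
  exact ne_top_of_le_ne_top hBtop (by rw [hB]; exact h8)

open Classical in
/-- the second moments -/
theorem sm_leU (hsite : S_site) (hmU : S_mU) (I : Set ℝ) (T : LL ι →L[ℂ] LL ι) (hT : Rs T)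
    (lam : ℝ) (s C : ℝ)
    (hs : 0 < s) (μ : Measure ℝ) [IsProbabilityMeasure μ]
    (hg : Gra μ lam s C) (y : ι) (E : ℝ) (hE : E ∈ I) (k : ℕ) (x : ι) :
    ∫⁻ ω, ENNReal.ofReal (ep k * ‖GW T lam ω (zk E k) x y‖ ^ 2)
      ∂(Measure.infinitePi fun _ : ι => μ) ≤ ENNReal.ofReal C * fsU I T lam s μ y x := by
  have hz : (zk E k).im ≠ 0 := by rw [Pool.Agent.H121.Z987.zk_im]; exact (ep_pos k).ne'
  have hm := GW_meas1 hmU T hT lam (zk E k) x y hz
  have hm1 : Measurable fun ω : ι → ℝ =>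
      ENNReal.ofReal (ep k * ‖GW T lam ω (zk E k) x y‖ ^ 2) :=
    ((hm.norm.pow_const 2).const_mul _).ennreal_ofReal
  have hm2 : Measurable fun ω : ι → ℝ => ‖GW T lam ω (zk E k) x y‖ₑ ^ s :=
    hm.enorm.pow_const s
  calc ∫⁻ ω, ENNReal.ofReal (ep k * ‖GW T lam ω (zk E k) x y‖ ^ 2)
        ∂(Measure.infinitePi fun _ : ι => μ) =
        ∫⁻ ω, ∫⁻ v, ENNReal.ofReal (ep k *
          ‖GW T lam (Function.update ω x v) (zk E k) x y‖ ^ 2) ∂μ
          ∂(Measure.infinitePi fun _ : ι => μ) := lint_resample μ x _ hm1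
    _ ≤ ∫⁻ ω, ENNReal.ofReal C *
          ∫⁻ v, ‖GW T lam (Function.update ω x v) (zk E k) x y‖ₑ ^ s ∂μ
          ∂(Measure.infinitePi fun _ : ι => μ) :=
        lintegral_mono fun ω => graf_grU hsite T hT lam s C hs μ hg ω E k x y
    _ = ENNReal.ofReal C * fmU T lam s μ y (zk E k) x := by
        rw [lintegral_const_mul' _ _ ENNReal.ofReal_ne_top]
        unfold fmU
        rw [lint_resample μ x _ hm2]
    _ ≤ _ := by
        gcongr
        exact le_iSup (fun p : I × ℕ => fmU T lam s μ y (zk (p.1 : ℝ) p.2) x) (⟨E, hE⟩, k)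

/-- the tail of the averaged second moments -/
noncomputable def TU (w : ℝ → ℝ) (T : LL ι →L[ℂ] LL ι) (lam : ℝ) (ω : ι → ℝ) (y : ι)
    (F : Finset ι) (k : ℕ) : ℝ≥0∞ :=
  TR w (RU T fun x => lam * ω x) y F k

/-- the averaged second moment of one matrix element -/
noncomputable def SU (w : ℝ → ℝ) (T : LL ι →L[ℂ] LL ι) (lam : ℝ) (ω : ι → ℝ) (x y : ι) (k : ℕ) :
    ℝ≥0∞ :=
  ∫⁻ E, ENNReal.ofReal (ep k * ‖GW T lam ω (zk E k) x y‖ ^ 2) ∂(Qw w)

theorem SU_meas (hmU : S_mU) (w : ℝ → ℝ) (hw1 : ∀ E, w E ≤ wt E) (T : LL ι →L[ℂ] LL ι)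
    (hT : Rs T) (lam : ℝ) (x y : ι) (k : ℕ) :
    Measurable fun ω : ι → ℝ => SU w T lam ω x y k := by
  unfold SU
  have := Qw_isFinite w hw1
  exact Measurable.lintegral_prod_left'
    (((GW_meas hmU T hT lam k x y).norm.pow_const 2).const_mul _).ennreal_ofReal

theorem SU_int (hsite : S_site) (hmU : S_mU) (w : ℝ → ℝ) (hwc : Continuous w)
    (hw1 : ∀ E, w E ≤ wt E) (I : Set ℝ)
    (hI : ∀ E, 0 < w E → E ∈ I) (T : LL ι →L[ℂ] LL ι) (hT : Rs T) (lam : ℝ) (s C : ℝ)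
    (hs : 0 < s) (μ : Measure ℝ) [IsProbabilityMeasure μ]
    (hg : Gra μ lam s C) (x y : ι) (k : ℕ) :
    ∫⁻ ω, SU w T lam ω x y k ∂(Measure.infinitePi fun _ : ι => μ) ≤
      ENNReal.ofReal C * Qw w Set.univ * fsU I T lam s μ y x := by
  unfold SU
  have := Qw_isFinite w hw1
  have h2 : Measurable (Function.uncurry fun (E : ℝ) (ω : ι → ℝ) =>
      ENNReal.ofReal (ep k * ‖GW T lam ω (zk E k) x y‖ ^ 2)) :=
    (((GW_meas hmU T hT lam k x y).norm.pow_const 2).const_mul _).ennreal_ofReal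
  rw [← lintegral_lintegral_swap (μ := Qw w) (ν := Measure.infinitePi fun _ : ι => μ)
    (f := fun (E : ℝ) (ω : ι → ℝ) => ENNReal.ofReal
      (ep k * ‖GW T lam ω (zk E k) x y‖ ^ 2)) h2.aemeasurable]
  calc ∫⁻ E, ∫⁻ ω, ENNReal.ofReal
          (ep k * ‖GW T lam ω (zk E k) x y‖ ^ 2) ∂(Measure.infinitePi fun _ : ι => μ) ∂(Qw w) ≤
        ∫⁻ _, ENNReal.ofReal C * fsU I T lam s μ y x ∂(Qw w) := by
        refine lintegral_mono_ae ?_
        filter_upwards [Qw_ae w hwc] with E hE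
        exact sm_leU hsite hmU I T hT lam s C hs μ hg y E (hI E hE) k x
    _ = _ := by
        rw [lintegral_const]
        ring

theorem TU_eq (hmU : S_mU) (w : ℝ → ℝ) (T : LL ι →L[ℂ] LL ι) (hT : Rs T) (lam : ℝ) (ω : ι → ℝ)
    (y : ι) (F : Finset ι) (k : ℕ) :
    TU w T lam ω y F k = ∑' x : {x : ι // x ∉ F}, SU w T lam ω x y k := by
  have h0 : TU w T lam ω y F k = ∫⁻ E, ∑' x : {x : ι // x ∉ F},
      ENNReal.ofReal (ep k * ‖GW T lam ω (zk E k) x y‖ ^ 2) ∂(Qw w) := rfl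
  rw [h0]
  unfold SU
  rw [lintegral_tsum fun x => ?_]
  have h1 : Measurable fun E : ℝ => GW T lam ω (zk E k) (x : ι) y :=
    sec_meas (fun (E : ℝ) (ω : ι → ℝ) => GW T lam ω (zk E k) (x : ι) y)
      (GW_meas hmU T hT lam k (x : ι) y) ω
  exact (((h1.norm.pow_const 2).const_mul (ep k)).ennreal_ofReal).aemeasurable

theorem TU_meas (hmU : S_mU) (w : ℝ → ℝ) (hw1 : ∀ E, w E ≤ wt E) (T : LL ι →L[ℂ] LL ι)
    (hT : Rs T) (lam : ℝ) (y : ι) (F : Finset ι) (k : ℕ) :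
    Measurable fun ω : ι → ℝ => TU w T lam ω y F k := by
  simp only [TU_eq hmU w T hT lam _ y F k]
  exact Measurable.tsum fun x => SU_meas hmU w hw1 T hT lam x y k

theorem TU_int (hsite : S_site) (hmU : S_mU) (w : ℝ → ℝ) (hwc : Continuous w)
    (hw1 : ∀ E, w E ≤ wt E) (I : Set ℝ)
    (hI : ∀ E, 0 < w E → E ∈ I) (T : LL ι →L[ℂ] LL ι) (hT : Rs T) (lam : ℝ) (s C : ℝ)
    (hs : 0 < s) (μ : Measure ℝ) [IsProbabilityMeasure μ]
    (hg : Gra μ lam s C) (y : ι) (F : Finset ι) (k : ℕ) :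
    ∫⁻ ω, TU w T lam ω y F k ∂(Measure.infinitePi fun _ : ι => μ) ≤
      ENNReal.ofReal C * Qw w Set.univ * ∑' x : {x : ι // x ∉ F}, fsU I T lam s μ y x := by
  simp only [TU_eq hmU w T hT lam _ y F k]
  rw [lintegral_tsum fun x : {x : ι // x ∉ F} => (SU_meas hmU w hw1 T hT lam x y k).aemeasurable,
    ← ENNReal.tsum_mul_left]
  exact ENNReal.tsum_le_tsum fun x => SU_int hsite hmU w hwc hw1 I hI T hT lam s C hs μ hg x y k

/-- the final step in the environment -/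
theorem ae_tightU (hsite : S_site) (hmU : S_mU) (w : ℝ → ℝ) (hwc : Continuous w)
    (hw1 : ∀ E, w E ≤ wt E) (I : Set ℝ)
    (hI : ∀ E, 0 < w E → E ∈ I) (T : LL ι →L[ℂ] LL ι) (hT : Rs T) (lam : ℝ) (s C : ℝ)
    (hs : 0 < s) (μ : Measure ℝ) [IsProbabilityMeasure μ]
    (hg : Gra μ lam s C) (y : ι) (hfs : ∑' x, fsU I T lam s μ y x ≠ ∞) :
    ∀ᵐ ω ∂(Measure.infinitePi fun _ : ι => μ), ∀ δ : ℝ≥0∞, 0 < δ → ∃ F : Finset ι,
      liminf (fun k => TR w (RU T fun x => lam * ω x) y F k) atTop ≤ δ := by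
  obtain ⟨B, hB⟩ : ∃ B, B = ENNReal.ofReal C * Qw w Set.univ := ⟨_, rfl⟩
  have hBtop : B ≠ ∞ := by
    rw [hB]
    exact ENNReal.mul_ne_top ENNReal.ofReal_ne_top (Qw_fin w hw1)
  have h0 : Tendsto (fun F : Finset ι => B * ∑' x : {x : ι // x ∉ F}, fsU I T lam s μ y x) atTop
      (𝓝 0) := by
    have h1 := ENNReal.tendsto_tsum_compl_atTop_zero hfs
    have h2 := ENNReal.Tendsto.const_mul h1 (Or.inr hBtop)
    rw [mul_zero] at h2
    exact h2
  have h3 : ∀ n : ℕ, ∃ F : Finset ι,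
      B * ∑' x : {x : ι // x ∉ F}, fsU I T lam s μ y x ≤ ((n : ℝ≥0∞) + 1)⁻¹ := by
    intro n
    have hpos : (0 : ℝ≥0∞) < ((n : ℝ≥0∞) + 1)⁻¹ := by
      refine ENNReal.inv_pos.2 ?_
      exact ENNReal.add_ne_top.2 ⟨ENNReal.natCast_ne_top n, ENNReal.one_ne_top⟩
    obtain ⟨F, hF⟩ := (h0.eventually (ge_mem_nhds hpos)).exists
    exact ⟨F, hF⟩
  choose F hF using h3
  have hm : ∀ n, Measurable fun ω : ι → ℝ => liminf (fun k => TU w T lam ω y (F n) k) atTop :=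
    fun n => Measurable.liminf fun k => TU_meas hmU w hw1 T hT lam y (F n) k
  have h4 : ∀ n, ∫⁻ ω, liminf (fun k => TU w T lam ω y (F n) k) atTop
      ∂(Measure.infinitePi fun _ : ι => μ) ≤ ((n : ℝ≥0∞) + 1)⁻¹ := by
    intro n
    refine (lintegral_liminf_le (μ := Measure.infinitePi fun _ : ι => μ) (u := atTop)
      (f := fun k ω => TU w T lam ω y (F n) k)
      fun k => TU_meas hmU w hw1 T hT lam y (F n) k).trans ?_
    refine liminf_le_of_frequently_le' (Filter.Eventually.frequently ?_)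
    filter_upwards with k
    refine (TU_int hsite hmU w hwc hw1 I hI T hT lam s C hs μ hg y (F n) k).trans ?_
    rw [← hB]
    exact hF n
  have h5 : ∫⁻ ω, ⨅ n, liminf (fun k => TU w T lam ω y (F n) k) atTop
      ∂(Measure.infinitePi fun _ : ι => μ) = 0 := by
    refine le_antisymm ?_ bot_le
    have h6 : Tendsto (fun n : ℕ => ((n : ℝ≥0∞) + 1)⁻¹) atTop (𝓝 0) := by
      have h7 := ENNReal.tendsto_inv_nat_nhds_zero
      have h8 := (tendsto_add_atTop_iff_nat 1).2 h7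
      refine h8.congr fun n => ?_
      push_cast
      rfl
    refine ge_of_tendsto' h6 fun n => le_trans ?_ (h4 n)
    exact lintegral_mono fun ω => iInf_le _ n
  rw [lintegral_eq_zero_iff (Measurable.iInf hm)] at h5
  filter_upwards [h5] with ω hω δ hδ
  have h6 : ⨅ n, liminf (fun k => TU w T lam ω y (F n) k) atTop < δ := by
    have : (⨅ n, liminf (fun k => TU w T lam ω y (F n) k) atTop) = 0 := hω
    rw [this]
    exact hδ
  obtain ⟨n, hn⟩ := iInf_lt_iff.1 h6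
  exact ⟨F n, hn.le⟩

end prob

/-- from the sites to all vectors, in a set of energies -/
theorem closR (hclos : S_closR) [Countable ι] (R : ℂ → LL ι →L[ℂ] LL ι) (hR : Rf R) (U : Set ℝ)
    (hU : MeasurableSet U)
    (hy : ∀ y : ι, ∃ (m : Measure ℝ) (A : Set ℝ), SpR R (dv y) m ∧ A.Countable ∧ m (U \ A) = 0)
    (φ : LL ι) (m : Measure ℝ) (hm : SpR R φ m) : ∃ A : Set ℝ, A.Countable ∧ m (U \ A) = 0 := by
  choose M A hM hA hMA using hy
  refine ⟨⋃ y, A y, Set.countable_iUnion hA, ?_⟩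
  have hme : MeasurableSet (U \ ⋃ y, A y) := hU.diff (Set.countable_iUnion hA).measurableSet
  refine hclos ι R hR _ hme (fun y => ⟨M y, hM y, ?_⟩) φ m hm
  refine measure_mono_null ?_ (hMA y)
  exact Set.sdiff_subset_sdiff_right (Set.subset_iUnion A y)

/-- **GA-LOCU**: localization in an energy window, unbounded potentials. -/
theorem locU (hruB : S_ruB) (hsite : S_site) (hmU : S_mU) (hwien : S_wienR) (hclos : S_closR) :
    S_locU := by
  intro w hwc hw0 hw1 I hI ι _ T hT lam s c S C hlam hs hs1 hL hc hS hTs μ _ hg hd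
  have hU : MeasurableSet {E | 0 < w E} := (isOpen_lt continuous_const hwc).measurableSet
  have h1 : ∀ᵐ ω ∂(Measure.infinitePi fun _ : ι => μ), ∀ y : ι, ∀ δ : ℝ≥0∞, 0 < δ →
      ∃ F : Finset ι, liminf (fun k => TR w (RU T fun x => lam * ω x) y F k) atTop ≤ δ := by
    rw [ae_all_iff]
    intro y
    exact ae_tightU hsite hmU w hwc hw1 I hI T hT lam s C hs μ hg y
      (fs_sumU hsite hmU I T hT lam hlam s c S hs hs1.le hL hc hTs μ hd y)
  filter_upwards [h1] with ω hω φ m hm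
  have hR : Rf (RU T fun x => lam * ω x) := hruB ι T hT _
  refine closR hclos _ hR _ hU (fun y => ?_) φ m hm
  obtain ⟨m', hm', -⟩ := hR.sp (dv y)
  obtain ⟨A, hA1, hA2⟩ := hwien w hwc hw0 hw1 ι _ hR y (hω y) m' hm'
  exact ⟨m', A, hm', hA1, hA2⟩

end Pool.Agent.H139.GA

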